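import Mathlib
import Pool.Agent.Helper58.LU.Trace
import Pool.Agent.Helper58.LU.Conv

/-!
# The conditional dimension of a trace with finitely supported measure

* `rank_le_card`: it is at most the number of points of the support.
* `atom_const`: all atoms of an ergodic finitely supported measure have the same mass.
-/

set_option autoImplicit false

open MeasureTheory Filter Topology Finset Helper17.FU Helper17.FUGroup Helper91.TTT
open scoped ENNReal ComplexConjugate ComplexOrder InnerProductSpace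

namespace Helper16.SAG

open Helper58.FX (ft Erg T)
open Helper75.LP (erg_sets)

/-- The translates by `T` are translates by powers of `τ`. -/
theorem translates_of_kernel {G : Type} [Group G] {φ : G → ℂ} [Fact (PD φ)] (hφ1 : φ 1 = 1)
    (hφc : ∀ g h : G, φ (h * g * h⁻¹) = φ g)
    (P τ : G) (hP : ∀ j : ℤ, P * τ ^ j * P⁻¹ = τ ^ (6 * j)) {M : ℤ} (hM : M ≠ 0)
    (hker : φ (τ ^ M) = 1) (T : Set G)
    (hT : ∀ n ∈ T, ∃ (K : ℕ) (m : ℤ), P ^ K * n * (P ^ K)⁻¹ = τ ^ m) :
    {F : G → ℂ | ∃ n : G, n ∈ T ∧ F = fun x => φ (n * x)} ⊆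
      Set.range (fun j : Fin M.natAbs => fun x : G => φ (τ ^ (j : ℕ) * x)) := by
  have hPK : ∀ (K : ℕ) (j : ℤ), P ^ K * τ ^ j * (P ^ K)⁻¹ = τ ^ (6 ^ K * j) := fun K j =>
    conj_iter hP K j
  obtain ⟨a0, d, hd, hdvd⟩ := exists_period M.natAbs (Int.natAbs_pos.mpr hM)
  rintro F ⟨n, hn, rfl⟩
  obtain ⟨K, m, hKm⟩ := hT n hn
  set t := K with ht
  have hKt : K ≤ d * t := by
    rw [ht]; exact Nat.le_mul_of_pos_left K (by omega)
  set m' : ℤ := 6 ^ (d * t - K) * m with hm'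
  have hconj : P ^ (d * t) * n * (P ^ (d * t))⁻¹ = τ ^ m' := by
    have e : P ^ (d * t) = P ^ (d * t - K) * P ^ K := by
      rw [← pow_add]; congr 1; omega
    rw [e]
    have e2 : P ^ (d * t - K) * P ^ K * n * (P ^ (d * t - K) * P ^ K)⁻¹ =
        P ^ (d * t - K) * (P ^ K * n * (P ^ K)⁻¹) * (P ^ (d * t - K))⁻¹ := by group
    rw [e2, hKm, hPK]
  set j : ℤ := m' % (M.natAbs : ℤ) with hj
  have hMpos : (0 : ℤ) < (M.natAbs : ℤ) := by
    exact_mod_cast Int.natAbs_pos.mpr hM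
  have hj0 : 0 ≤ j := Int.emod_nonneg _ hMpos.ne'
  have hj1 : j < (M.natAbs : ℤ) := Int.emod_lt_of_pos _ hMpos
  have hdiv : (M.natAbs : ℤ) ∣ 6 ^ a0 * (m' - 6 ^ (d * t) * j) := by
    have e : (6 : ℤ) ^ a0 * (m' - 6 ^ (d * t) * j) = 6 ^ a0 * (m' - j) -
        (6 ^ a0 * (6 ^ (d * t) - 1)) * j := by ring
    rw [e]
    refine dvd_sub (Dvd.dvd.mul_left ?_ _) ((period_mul hdvd t).mul_right j)
    exact Int.dvd_self_sub_emod
  obtain ⟨i, hi⟩ := hdiv
  have ha : φ (n * (τ ^ j)⁻¹) = 1 := by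
    have e : P ^ (a0 + d * t) * (n * (τ ^ j)⁻¹) * (P ^ (a0 + d * t))⁻¹ =
        τ ^ ((M.natAbs : ℤ) * i) := by
      rw [pow_add]
      have e2 : P ^ a0 * P ^ (d * t) * (n * (τ ^ j)⁻¹) * (P ^ a0 * P ^ (d * t))⁻¹ =
          (P ^ a0 * (P ^ (d * t) * n * (P ^ (d * t))⁻¹) * (P ^ a0)⁻¹) *
          (P ^ a0 * (P ^ (d * t) * τ ^ j * (P ^ (d * t))⁻¹) * (P ^ a0)⁻¹)⁻¹ := by group
      rw [e2, hconj, hPK, hPK, hPK, ← zpow_neg, ← zpow_add, ← hi]
      congr 1
      ring
    rw [← hφc (n * (τ ^ j)⁻¹) (P ^ (a0 + d * t)), e]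
    have hmem : τ ^ M ∈ kerφ φ hφ1 := hker
    have hmem2 : τ ^ ((M.natAbs : ℤ) * i) ∈ kerφ φ hφ1 := by
      rcases Int.natAbs_eq M with h | h
      · rw [zpow_mul, ← h]
        exact Subgroup.zpow_mem _ hmem i
      · have e3 : (M.natAbs : ℤ) * i = M * (-i) := by rw [h]; simp
        rw [e3, zpow_mul]
        exact Subgroup.zpow_mem _ hmem (-i)
    exact hmem2
  refine ⟨⟨j.toNat, ?_⟩, ?_⟩
  · have := Int.toNat_of_nonneg hj0
    omega
  · funext x
    show φ (τ ^ j.toNat * x) = φ (n * x)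
    have e : n * x = (n * (τ ^ j)⁻¹) * (τ ^ j * x) := by group
    have e2 : τ ^ j.toNat = τ ^ j := by
      rw [← zpow_natCast, Int.toNat_of_nonneg hj0]
    rw [e2]
    conv_rhs => rw [e]
    rw [kernel_mul hφ1 ha]

/-- A combination of powers of `τ` which vanishes on the support of the measure acts as zero. -/
theorem zero_of_vanish {G : Type} [Group G] {φ : G → ℂ} [Fact (PD φ)] (τ : G)
    {μ : Measure (AddCircle (1 : ℝ))} [IsProbabilityMeasure μ]
    (hμ : ∀ n : ℤ, ∫ x, (fourier n x : ℂ) ∂μ = φ (τ ^ n))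
    {M : ℕ} (c : Fin M → ℂ) (h0 : ∀ᵐ x ∂μ, ∑ j, c j * (fourier (j : ℤ) x : ℂ) = 0) (g : G) :
    ∑ j, c j * φ (τ ^ (j : ℕ) * g) = 0 := by
  set v : GV φ := ∑ j : Fin M, (conj (c j)) • dl φ (τ ^ (-((j : ℕ) : ℤ))) with hv
  have hinner : ∀ g : G, ⟪v, dl φ g⟫_ℂ = ∑ j : Fin M, c j * φ (τ ^ (j : ℕ) * g) := by
    intro g
    rw [hv, sum_inner]
    refine Finset.sum_congr rfl fun j _ => ?_
    rw [inner_smul_left, inner_dl, ← zpow_neg, neg_neg, zpow_natCast]
    simp
  have hvv : ⟪v, v⟫_ℂ = 0 := by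
    have e1 : ⟪v, v⟫_ℂ = ∑ k : Fin M, ∑ j : Fin M, conj (c k) * (c j *
        φ (τ ^ (((j : ℕ) : ℤ) - ((k : ℕ) : ℤ)))) := by
      conv_lhs => rw [hv, inner_sum]
      refine Finset.sum_congr rfl fun k _ => ?_
      rw [inner_smul_right, ← hv, hinner, Finset.mul_sum]
      refine Finset.sum_congr rfl fun j _ => ?_
      rw [← zpow_natCast, ← zpow_add, ← sub_eq_add_neg]
    rw [e1]
    have e2 : ∀ k j : Fin M, φ (τ ^ (((j : ℕ) : ℤ) - ((k : ℕ) : ℤ))) =
        ∫ x, (fourier (((j : ℕ) : ℤ) - ((k : ℕ) : ℤ)) x : ℂ) ∂μ := fun k j => (hμ _).symm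
    have hint : ∀ f : AddCircle (1 : ℝ) → ℂ, Continuous f → Integrable f μ := fun f hf =>
      Helper17.TranslM.integrable_cont μ hf
    have e3 : ∀ k : Fin M, ∑ j : Fin M, conj (c k) * (c j *
        φ (τ ^ (((j : ℕ) : ℤ) - ((k : ℕ) : ℤ)))) = 0 := by
      intro k
      have e4 : ∑ j : Fin M, conj (c k) * (c j * φ (τ ^ (((j : ℕ) : ℤ) - ((k : ℕ) : ℤ)))) =
          ∫ x, conj (c k) * ((fourier (-((k : ℕ) : ℤ)) x : ℂ) *
            ∑ j : Fin M, c j * (fourier (j : ℤ) x : ℂ)) ∂μ := by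
        have e5 : ∀ x : AddCircle (1 : ℝ), conj (c k) * ((fourier (-((k : ℕ) : ℤ)) x : ℂ) *
            ∑ j : Fin M, c j * (fourier (j : ℤ) x : ℂ)) = ∑ j : Fin M, conj (c k) * (c j *
              (fourier (((j : ℕ) : ℤ) - ((k : ℕ) : ℤ)) x : ℂ)) := by
          intro x
          rw [Finset.mul_sum, Finset.mul_sum]
          refine Finset.sum_congr rfl fun j _ => ?_
          rw [sub_eq_add_neg, fourier_add]
          ring
        simp only [e5]
        rw [integral_finsetSum _ fun j _ => hint _ (by fun_prop)]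
        refine Finset.sum_congr rfl fun j _ => ?_
        rw [integral_const_mul, integral_const_mul, e2]
      rw [e4]
      rw [integral_eq_zero_of_ae]
      filter_upwards [h0] with x hx
      rw [hx]
      simp
    exact Finset.sum_eq_zero fun k _ => e3 k
  have hn : ‖v‖ = 0 := by
    have h1 : ‖v‖ ^ 2 = 0 := by
      rw [norm_sq_eq_re_inner (𝕜 := ℂ) v, hvv]
      simp
    exact pow_eq_zero_iff two_ne_zero |>.1 h1
  rw [← hinner g]
  have h3 := norm_inner_le_norm (𝕜 := ℂ) v (dl φ g)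
  rw [hn, zero_mul] at h3
  exact norm_le_zero_iff.1 h3

/-- the conditional dimension is at most the number of points of the support -/
theorem rank_le_card_of_kernel {G : Type} [Group G] {φ : G → ℂ} [Fact (PD φ)] (hφ1 : φ 1 = 1)
    (hφc : ∀ g h : G, φ (h * g * h⁻¹) = φ g)
    (P τ : G) (hP : ∀ j : ℤ, P * τ ^ j * P⁻¹ = τ ^ (6 * j)) {M : ℤ} (hM : M ≠ 0)
    (hker : φ (τ ^ M) = 1) (T : Set G)
    (hT : ∀ n ∈ T, ∃ (K : ℕ) (m : ℤ), P ^ K * n * (P ^ K)⁻¹ = τ ^ m)
    {μ : Measure (AddCircle (1 : ℝ))} [IsProbabilityMeasure μ]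
    (hμ : ∀ n : ℤ, ∫ x, (fourier n x : ℂ) ∂μ = φ (τ ^ n))
    (O : Finset (AddCircle (1 : ℝ))) (hO : ∀ᵐ x ∂μ, x ∈ O) :
    FiniteDimensional ℂ (Submodule.span ℂ {F : G → ℂ | ∃ n : G, n ∈ T ∧
      F = fun x => φ (n * x)}) ∧
    Module.finrank ℂ (Submodule.span ℂ {F : G → ℂ | ∃ n : G, n ∈ T ∧
      F = fun x => φ (n * x)}) ≤ O.card := by
  have hsub := translates_of_kernel hφ1 hφc P τ hP hM hker T hT
  set N := M.natAbs
  -- the two linear maps
  let TT : (Fin N → ℂ) →ₗ[ℂ] (G → ℂ) :=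
    { toFun := fun c g => ∑ j, c j * φ (τ ^ (j : ℕ) * g)
      map_add' := by
        intro c d
        funext g
        simp only [Pi.add_apply, add_mul]
        rw [Finset.sum_add_distrib]
      map_smul' := by
        intro a c
        funext g
        simp only [Pi.smul_apply, smul_eq_mul, RingHom.id_apply, mul_assoc]
        rw [Finset.mul_sum] }
  let E : (Fin N → ℂ) →ₗ[ℂ] (O → ℂ) :=
    { toFun := fun c x => ∑ j, c j * (fourier (j : ℤ) (x : AddCircle (1 : ℝ)) : ℂ)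
      map_add' := by
        intro c d
        funext g
        simp only [Pi.add_apply, add_mul]
        rw [Finset.sum_add_distrib]
      map_smul' := by
        intro a c
        funext g
        simp only [Pi.smul_apply, smul_eq_mul, RingHom.id_apply, mul_assoc]
        rw [Finset.mul_sum] }
  have hker2 : LinearMap.ker E ≤ LinearMap.ker TT := by
    intro c hc
    rw [LinearMap.mem_ker] at hc ⊢
    funext g
    refine zero_of_vanish τ hμ c ?_ g
    filter_upwards [hO] with x hx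
    exact congrFun hc ⟨x, hx⟩
  have hspan : Submodule.span ℂ {F : G → ℂ | ∃ n : G, n ∈ T ∧ F = fun x => φ (n * x)} ≤
      LinearMap.range TT := by
    rw [Submodule.span_le]
    refine hsub.trans ?_
    rintro F ⟨j, rfl⟩
    refine ⟨Pi.single j 1, ?_⟩
    funext g
    show ∑ i, (Pi.single j (1 : ℂ) : Fin N → ℂ) i * φ (τ ^ (i : ℕ) * g) = φ (τ ^ (j : ℕ) * g)
    rw [Finset.sum_eq_single j]
    · simp
    · intro i _ hij
      rw [Pi.single_eq_of_ne hij, zero_mul]
    · intro h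
      exact absurd (Finset.mem_univ j) h
  have hfd : FiniteDimensional ℂ (Submodule.span ℂ {F : G → ℂ | ∃ n : G, n ∈ T ∧
      F = fun x => φ (n * x)}) := Submodule.finiteDimensional_of_le hspan
  refine ⟨hfd, ?_⟩
  have h1 := Submodule.finrank_mono hspan
  have h2 := LinearMap.finrank_range_add_finrank_ker TT
  have h3 := LinearMap.finrank_range_add_finrank_ker E
  have h4 := Submodule.finrank_mono hker2
  have h5 : Module.finrank ℂ (LinearMap.range E) ≤ O.card := by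
    refine (Submodule.finrank_le _).trans ?_
    rw [Module.finrank_fintype_fun_eq_card, Fintype.card_coe]
  omega

variable {s2 s3 t : Equiv.Perm ℚ}

/-- the measure of a conditionally finite dimensional extreme trace is uniform on as many points as
the conditional dimension -/
theorem uniform_of_fd (h2 : ∀ x : ℚ, s2 x = 2 * x) (h3 : ∀ x : ℚ, s3 x = 3 * x)
    (ht : ∀ x : ℚ, t x = x + 1) {τ : GG s2 s3 t} (hτ : (τ : Equiv.Perm ℚ) = t)
    {φ : GG s2 s3 t → ℂ} (hφ : φ ∈ Set.extremePoints ℝ (TR (GG s2 s3 t)))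
    {μ : Measure (AddCircle (1 : ℝ))} [IsProbabilityMeasure μ]
    (hμ : ∀ n : ℤ, ∫ x, (fourier n x : ℂ) ∂μ = φ (τ ^ n))
    (hm2 : MeasurePreserving (T 2) μ μ) (hm3 : MeasurePreserving (T 3) μ μ)
    (hfd : FiniteDimensional ℂ (Submodule.span ℂ {F : GG s2 s3 t → ℂ | ∃ n : GG s2 s3 t,
      IsTr n ∧ F = fun x => φ (n * x)})) :
    ∃ O : Finset (AddCircle (1 : ℝ)), (∀ᵐ x ∂μ, x ∈ O) ∧
      Module.finrank ℂ (Submodule.span ℂ {F : GG s2 s3 t → ℂ | ∃ n : GG s2 s3 t,
        IsTr n ∧ F = fun x => φ (n * x)}) = O.card ∧ 0 < O.card ∧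
      ∀ x, μ.real {x} ≤ 1 / O.card := by
  classical
  have hφ1 : φ 1 = 1 := hφ.1.1
  have hφc := hφ.1.2.1
  have hFφ : Fact (PD φ) := ⟨hφ.1.2.2⟩
  have hE := Pool.Agent.Helper40.TMA.erg_of_extreme h2 h3 ht hτ hφ hμ
  set d := Module.finrank ℂ (Submodule.span ℂ {F : GG s2 s3 t → ℂ | ∃ n : GG s2 s3 t,
      IsTr n ∧ F = fun x => φ (n * x)}) with hd
  have hrank : Module.rank ℂ (Submodule.span ℂ {F : GG s2 s3 t → ℂ | ∃ n : GG s2 s3 t,
      IsTr n ∧ F = fun x => φ (n * x)}) ≤ (d : Cardinal) := by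
    rw [hd, Module.finrank_eq_rank]
  obtain ⟨c, hc, hrec⟩ := Helper58.LU.recurrence_of_rank hτ ht hrank
  obtain ⟨Z, hZ, hae⟩ := Helper58.LU.support_card μ d c hc (fun m => by
    rw [← hrec m]
    refine Finset.sum_congr rfl fun j _ => ?_
    congr 1
    exact hμ _)
  -- the atoms
  set O := Z.filter fun x => 0 < μ.real {x} with hO
  have hOae : ∀ᵐ x ∂μ, x ∈ O := by
    have h4 : μ ((Z : Set (AddCircle (1 : ℝ))) \ O) = 0 := by
      have h5 : ((Z : Set (AddCircle (1 : ℝ))) \ O) =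
          ((Z.filter fun x => ¬ 0 < μ.real {x} : Finset _) : Set _) := by
        ext x
        simp only [hO, Set.mem_sdiff, Finset.mem_coe, Finset.mem_filter]
        tauto
      rw [h5, ← sum_measure_singleton]
      refine Finset.sum_eq_zero fun x hx => ?_
      have h6 := (Finset.mem_filter.1 hx).2
      have h7 : μ.real {x} = 0 := le_antisymm (not_lt.1 h6) measureReal_nonneg
      rw [measureReal_def, ENNReal.toReal_eq_zero_iff] at h7
      exact h7.resolve_right (measure_ne_top _ _)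
    have h8 : ∀ᵐ x ∂μ, x ∉ (Z : Set (AddCircle (1 : ℝ))) \ O := measure_eq_zero_iff_ae_notMem.1 h4
    filter_upwards [h8, hae] with x hx hxZ
    by_contra hcon
    exact hx ⟨hxZ, hcon⟩
  have hOne : O.Nonempty := by
    obtain ⟨x, hx⟩ := hOae.exists
    exact ⟨x, hx⟩
  -- the largest atom
  obtain ⟨x0, hx0, hmax⟩ := Finset.exists_max_image O (fun x => μ.real {x}) hOne
  set a := μ.real {x0} with ha
  have hapos : 0 < a := (Finset.mem_filter.1 hx0).2
  have hone : ∀ (s : ℕ), MeasurePreserving (T s) μ μ → ∀ (y : AddCircle (1 : ℝ)),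
      a ≤ μ.real {y} → a ≤ μ.real {s • y} := by
    intro s hs y hy
    have h4 := hs.measure_preimage (measurableSet_singleton (s • y)).nullMeasurableSet
    refine hy.trans ?_
    rw [measureReal_def, measureReal_def, ← h4]
    refine ENNReal.toReal_mono (measure_ne_top μ _) (measure_mono ?_)
    intro z hz
    rw [Set.mem_singleton_iff] at hz
    subst hz
    exact Set.mem_singleton _
  have hOatom : ∀ x : AddCircle (1 : ℝ), 0 < μ.real {x} → x ∈ O := by
    intro x hx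
    by_contra hcon
    have h4 : μ {x} = 0 := by
      rw [measure_eq_zero_iff_ae_notMem]
      filter_upwards [hOae] with y hy hyx
      rw [Set.mem_singleton_iff] at hyx
      rw [hyx] at hy
      exact hcon hy
    rw [measureReal_def, h4, ENNReal.toReal_zero] at hx
    exact lt_irrefl _ hx
  set A : Set (AddCircle (1 : ℝ)) := {x | a ≤ μ.real {x}} with hA
  have hAO : A ⊆ O := fun x hx => hOatom x (hapos.trans_le hx)
  have hAm : MeasurableSet A := (O.finite_toSet.subset hAO).measurableSet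
  have hA1 : μ A = 1 := by
    rcases erg_sets hm2 hm3 hE A hAm (fun x hx => hone 2 hm2 x hx) (fun x hx => hone 3 hm3 x hx)
      with h | h
    · exfalso
      have h5 : μ.real {x0} ≤ μ.real A :=
        measureReal_mono (Set.singleton_subset_iff.2 (show a ≤ μ.real {x0} from le_rfl))
          (measure_ne_top μ _)
      have h6 : μ.real A = 0 := by rw [measureReal_def, h, ENNReal.toReal_zero]
      rw [h6] at h5
      linarith
    · exact h
  have hAae : ∀ᵐ x ∂μ, x ∈ A := by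
    rw [ae_iff]
    exact (prob_compl_eq_zero_iff hAm).2 hA1
  have hAll : ∀ x ∈ O, μ.real {x} = a := by
    intro x hx
    refine le_antisymm (hmax x hx) ?_
    by_contra hcon
    have h4 : μ {x} = 0 := by
      rw [measure_eq_zero_iff_ae_notMem]
      filter_upwards [hAae] with y hy hyx
      rw [Set.mem_singleton_iff] at hyx
      rw [hyx] at hy
      exact hcon hy
    have h5 := (Finset.mem_filter.1 hx).2
    rw [measureReal_def, h4, ENNReal.toReal_zero] at h5
    exact lt_irrefl _ h5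
  have hsum : (O.card : ℝ) * a = 1 := by
    have h4 : ∑ x ∈ O, μ.real {x} = μ.real (O : Set (AddCircle (1 : ℝ))) :=
      sum_measureReal_singleton _
    rw [Finset.sum_congr rfl hAll, Finset.sum_const, nsmul_eq_mul] at h4
    rw [h4, measureReal_def]
    have h5 : μ (O : Set (AddCircle (1 : ℝ))) = 1 := by
      rw [← prob_compl_eq_zero_iff O.measurableSet]
      exact hOae
    rw [h5, ENNReal.toReal_one]
  have hOpos : 0 < O.card := Finset.card_pos.2 hOne
  have hOpos' : (0 : ℝ) < O.card := by exact_mod_cast hOpos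
  -- the dimension
  obtain ⟨σ2, σ3, τ', hσ2, hσ3, hτ', e2, e3, ecomm, hgen⟩ := relations h2 h3 ht
  have hττ' : τ' = τ := Subtype.ext (by rw [hτ', hτ])
  rw [hττ'] at e2 e3 hgen
  have hP : ∀ j : ℤ, (σ2 * σ3) * τ ^ j * (σ2 * σ3)⁻¹ = τ ^ (6 * j) := by
    intro j
    have e : (σ2 * σ3) * τ ^ j * (σ2 * σ3)⁻¹ = σ2 * (σ3 * τ ^ j * σ3⁻¹) * σ2⁻¹ := by group
    rw [e, conj_pow3 e3, Helper17.FU.conj_pow e2]
    congr 1; ring
  obtain ⟨k, hk1, hk2, hk⟩ := Helper58.LU.period_of_atom hm2 hm3 hE hapos (le_refl a)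
  have hk6 : (6 : ℤ) ^ k - 1 ≠ 0 := by
    have : (6 : ℤ) ^ 1 ≤ 6 ^ k := pow_le_pow_right₀ (by norm_num) hk1
    omega
  have hker : φ (τ ^ ((6 : ℤ) ^ k - 1)) = 1 := by rw [← hμ]; exact hk
  have hle := (rank_le_card_of_kernel hφ1 hφc (σ2 * σ3) τ hP hk6 hker
    {n | IsTr n} (fun n hn => trans_conj h2 h3 ht hσ2 hσ3 hτ n hn) hμ O hOae).2
  have hge : O.card ≤ d := (Finset.card_le_card (Finset.filter_subset _ _)).trans hZ
  refine ⟨O, hOae, le_antisymm hle hge, hOpos, fun x => ?_⟩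
  rw [le_div_iff₀ hOpos', mul_comm]
  refine le_trans (mul_le_mul_of_nonneg_left ?_ hOpos'.le) hsum.le
  by_cases hx : x ∈ O
  · exact (hAll x hx).le
  · have : ¬ 0 < μ.real {x} := fun h => hx (hOatom x h)
    linarith

end Helper16.SAG
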