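import Mathlib
import Pool.Agent.Helper35.AG.Basic
import Pool.Agent.Helper88.AG.Exp

/-!
# Entropy, balls and convolutions of finitely supported measures on the circle
-/

set_option autoImplicit false
open MeasureTheory Filter Topology

namespace Helper16.SAG

open Helper35.AG

/-- Entropy of a probability vector carried by the index set `J`. -/
theorem sum_negMulLog_le (s J : Finset ℕ) (p : ℕ → ℝ) (h0 : ∀ i ∈ s, 0 ≤ p i)
    (h1 : ∑ i ∈ s, p i = 1) (hz : ∀ i ∈ s, i ∉ J → p i = 0) :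
    ∑ i ∈ s, Real.negMulLog (p i) ≤ Real.log J.card := by
  classical
  have hs : ∀ f : ℕ → ℝ, (∀ i ∈ s, i ∉ J → f i = 0) → ∑ i ∈ s, f i = ∑ i ∈ s ∩ J, f i := by
    intro f hf
    symm
    refine Finset.sum_subset Finset.inter_subset_left fun i hi hi' => hf i hi fun h => ?_
    exact hi' (Finset.mem_inter.2 ⟨hi, h⟩)
  have e1 := hs p hz
  have e2 := hs (fun i => Real.negMulLog (p i)) fun i hi hi' => by
    rw [hz i hi hi', Real.negMulLog_zero]
  rw [e2]
  rw [e1] at h1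
  have hne : (s ∩ J).Nonempty := by
    rcases Finset.eq_empty_or_nonempty (s ∩ J) with h | h
    · rw [h, Finset.sum_empty] at h1
      norm_num at h1
    · exact h
  have hJ : 0 < J.card := Finset.card_pos.2 (hne.mono Finset.inter_subset_right)
  have hn : (0 : ℝ) < J.card := by exact_mod_cast hJ
  have key : ∀ i ∈ s ∩ J, Real.negMulLog (p i) ≤
      p i * Real.log J.card + (1 / (J.card : ℝ) - p i) := by
    intro i hi
    have hp := h0 i (Finset.mem_inter.1 hi).1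
    rcases eq_or_lt_of_le hp with h | h
    · rw [← h, Real.negMulLog_zero]
      have : 0 < 1 / (J.card : ℝ) := by positivity
      linarith
    · have h3 := Real.log_le_sub_one_of_pos (show 0 < 1 / ((J.card : ℝ) * p i) by positivity)
      rw [one_div, Real.log_inv, Real.log_mul hn.ne' h.ne'] at h3
      unfold Real.negMulLog
      have h4 : p i * (-(Real.log J.card + Real.log (p i))) ≤
          p i * (((J.card : ℝ) * p i)⁻¹ - 1) := mul_le_mul_of_nonneg_left h3 hp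
      have h5 : p i * (((J.card : ℝ) * p i)⁻¹ - 1) = 1 / (J.card : ℝ) - p i := by
        field_simp
      linarith
  have hcard : ((s ∩ J).card : ℝ) ≤ J.card := by
    exact_mod_cast Finset.card_le_card Finset.inter_subset_right
  calc ∑ i ∈ s ∩ J, Real.negMulLog (p i)
      ≤ ∑ i ∈ s ∩ J, (p i * Real.log J.card + (1 / (J.card : ℝ) - p i)) :=
        Finset.sum_le_sum key
    _ = Real.log J.card + (((s ∩ J).card : ℝ) / J.card - 1) := by
        rw [Finset.sum_add_distrib, Finset.sum_sub_distrib, ← Finset.sum_mul, h1,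
          Finset.sum_const, nsmul_eq_mul]
        ring
    _ ≤ Real.log J.card := by
        have : ((s ∩ J).card : ℝ) / J.card ≤ 1 := (div_le_one hn).2 hcard
        linarith

theorem ent_le_of_support (μ : Measure Tor) [IsProbabilityMeasure μ] (Z : Finset Tor)
    (hZ : ∀ᵐ x ∂μ, x ∈ Z) (K : ℕ) : ent μ K ≤ Real.log Z.card := by
  classical
  have h1 : ent μ K ≤ Real.log (Z.image (idx K)).card := by
    unfold ent
    refine sum_negMulLog_le _ _ _ (fun i _ => measureReal_nonneg) (sum_cells μ K) ?_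
    intro i _ hi
    have h2 : μ {x | idx K x = i} = 0 := by
      rw [measure_eq_zero_iff_ae_notMem]
      filter_upwards [hZ] with x hx hx'
      exact hi (Finset.mem_image.2 ⟨x, hx, hx'⟩)
    rw [measureReal_def, h2, ENNReal.toReal_zero]
  have hne : Z.Nonempty := by
    obtain ⟨x, hx⟩ := hZ.exists
    exact ⟨x, hx⟩
  refine h1.trans (Real.log_le_log ?_ ?_)
  · exact_mod_cast Finset.card_pos.2 (hne.image _)
  · exact_mod_cast Finset.card_image_le

theorem real_le_of_one {μ : Measure Tor} [IsProbabilityMeasure μ] (Z : Finset Tor)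
    (hZ : ∀ᵐ x ∂μ, x ∈ Z) {c : ℝ} (hc : 0 ≤ c) (hat : ∀ x, μ.real {x} ≤ c) (B : Set Tor)
    (hB : ∀ x ∈ B, ∀ y ∈ B, x ∈ Z → y ∈ Z → x = y) : μ.real B ≤ c := by
  classical
  by_cases h : ∃ x ∈ B, x ∈ Z
  · obtain ⟨x, hxB, hxZ⟩ := h
    refine le_trans ?_ (hat x)
    rw [measureReal_def, measureReal_def]
    refine ENNReal.toReal_mono (measure_ne_top _ _) (measure_mono_ae ?_)
    filter_upwards [hZ] with y hy hyB
    have := hB y hyB x hxB hy hxZ
    rw [this]
    rfl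
  · have h2 : μ B = 0 := by
      rw [measure_eq_zero_iff_ae_notMem]
      filter_upwards [hZ] with x hx hx'
      exact h ⟨x, hx', hx⟩
    rw [measureReal_def, h2, ENNReal.toReal_zero]
    exact hc

theorem le_ent_of_atoms (μ : Measure Tor) [IsProbabilityMeasure μ] (Z : Finset Tor)
    (hZ : ∀ᵐ x ∂μ, x ∈ Z) {c : ℝ} (hc : 0 < c) (hat : ∀ x, μ.real {x} ≤ c) (K : ℕ)
    (hK : ∀ x ∈ Z, ∀ y ∈ Z, idx K x = idx K y → x = y) : Real.log (1 / c) ≤ ent μ K := by
  have h1 : ∀ i ∈ Finset.range (2 ^ K), μ.real {x | idx K x = i} * Real.log (1 / c) ≤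
      Real.negMulLog (μ.real {x | idx K x = i}) := by
    intro i _
    have hp : μ.real {x | idx K x = i} ≤ c :=
      real_le_of_one Z hZ hc.le hat _ fun x hx y hy hxZ hyZ => hK x hxZ y hyZ (hx.trans hy.symm)
    have h0 : 0 ≤ μ.real {x | idx K x = i} := measureReal_nonneg
    rcases eq_or_lt_of_le h0 with h | h
    · rw [← h]
      simp
    · unfold Real.negMulLog
      rw [one_div, Real.log_inv]
      have := Real.log_le_log h hp
      nlinarith
  have h2 := Finset.sum_le_sum h1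
  rw [← Finset.sum_mul, sum_cells, one_mul] at h2
  exact h2

/-- small scales separate the points of a finite set -/
theorem exists_scale (Z : Finset Tor) : ∃ K₀ : ℕ, ∀ K, K₀ ≤ K → ∀ x ∈ Z, ∀ y ∈ Z,
    ‖x - y‖ ≤ 2 / 2 ^ K → x = y := by
  obtain ⟨d, hd, -, h⟩ := Pool.Agent.Helper88.AG.exists_sep (Z : Set Tor) Z.finite_toSet
  obtain ⟨K₀, hK₀⟩ := exists_pow_lt_of_lt_one (show 0 < 3 * d / 2 by positivity)
    (show (1 / 2 : ℝ) < 1 by norm_num)
  refine ⟨K₀, fun K hK x hx y hy hxy => h x hx y hy (hxy.trans ?_)⟩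
  have h1 : (1 / 2 : ℝ) ^ K ≤ (1 / 2) ^ K₀ := pow_le_pow_of_le_one (by norm_num) (by norm_num) hK
  have h2 : (2 : ℝ) / 2 ^ K = 2 * (1 / 2) ^ K := by
    rw [div_pow, one_pow]
    ring
  rw [h2]
  linarith

theorem idx_inj_of_scale {Z : Finset Tor} {K : ℕ}
    (hK : ∀ x ∈ Z, ∀ y ∈ Z, ‖x - y‖ ≤ 2 / 2 ^ K → x = y) :
    ∀ x ∈ Z, ∀ y ∈ Z, idx K x = idx K y → x = y := by
  intro x hx y hy h
  refine hK x hx y hy ((norm_sub_le_of_idx h).trans ?_)
  gcongr
  norm_num

theorem ball_le {ν : Measure Tor} [IsProbabilityMeasure ν] (A : Finset Tor)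
    (hA : ∀ᵐ x ∂ν, x ∈ A) {c : ℝ} (hc : 0 ≤ c) (hat : ∀ x, ν.real {x} ≤ c) {K : ℕ}
    (hK : ∀ x ∈ A, ∀ y ∈ A, ‖x - y‖ ≤ 2 / 2 ^ K → x = y) (x : Tor) :
    ν.real (Metric.closedBall x (1 / 2 ^ K)) ≤ c := by
  refine real_le_of_one A hA hc hat _ fun y hy z hz hyA hzA => hK y hyA z hzA ?_
  rw [Metric.mem_closedBall, dist_eq_norm] at hy hz
  have e : y - z = (y - x) - (z - x) := by abel
  rw [e]
  refine (norm_sub_le _ _).trans ?_
  have : (2 : ℝ) / 2 ^ K = 1 / 2 ^ K + 1 / 2 ^ K := by ring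
  rw [this]
  exact add_le_add hy hz

theorem conv_support {μ ν : Measure Tor} [IsProbabilityMeasure μ] [IsProbabilityMeasure ν]
    {O A : Finset Tor} (hO : ∀ᵐ x ∂μ, x ∈ O) (hA : ∀ᵐ x ∂ν, x ∈ A) :
    ∀ᵐ x ∂(conv μ ν), ∃ y ∈ O, ∃ z ∈ A, y + z = x := by
  have hm : Measurable fun p : Tor × Tor => p.1 + p.2 := by fun_prop
  unfold conv
  have h1 : ∀ᵐ p : Tor × Tor ∂(μ.prod ν), p.1 ∈ O ∧ p.2 ∈ A := by
    have h2 : ∀ᵐ p : Tor × Tor ∂(μ.prod ν), p.1 ∈ O :=
      Measure.quasiMeasurePreserving_fst.ae hO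
    have h3 : ∀ᵐ p : Tor × Tor ∂(μ.prod ν), p.2 ∈ A :=
      Measure.quasiMeasurePreserving_snd.ae hA
    exact h2.and h3
  have hS : MeasurableSet {x : Tor | ∃ y ∈ O, ∃ z ∈ A, y + z = x} := by
    have : {x : Tor | ∃ y ∈ O, ∃ z ∈ A, y + z = x} =
        (fun p : Tor × Tor => p.1 + p.2) '' ((O : Set Tor) ×ˢ (A : Set Tor)) := by
      ext x
      constructor
      · rintro ⟨y, hy, z, hz, h⟩
        exact ⟨(y, z), ⟨hy, hz⟩, h⟩
      · rintro ⟨⟨y, z⟩, ⟨hy, hz⟩, h⟩
        exact ⟨y, hy, z, hz, h⟩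
    rw [this]
    exact ((O.finite_toSet.prod A.finite_toSet).image _).measurableSet
  rw [ae_map_iff hm.aemeasurable hS]
  filter_upwards [h1] with p hp
  exact ⟨p.1, hp.1, p.2, hp.2, rfl⟩

end Helper16.SAG
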