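import Mathlib
import Pool.Agent.Helper16.SAG.Fin
import Pool.Agent.Helper17.TranslM

/-!
# Additive growth of finite invariant sets

`Growth C ε η` is the conclusion of the growth theorem for one choice of the constants.  It is
applied to finitely supported measures, in particular to the uniform measures on finite sets.
-/

set_option autoImplicit false
open MeasureTheory Filter Topology

namespace Helper16.SAG

open Helper35.AG

/-- the conclusion of the growth theorem for one choice of constants -/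
def Growth (C ε η : ℝ) : Prop :=
  ∀ μ ν : Measure Tor, IsProbabilityMeasure μ → IsProbabilityMeasure ν → Inv μ → ∀ K : ℕ,
    (∀ i < 2 ^ K, ν.real {y | idx K y = i} ≤ η) → ent (conv μ ν) K ≤ ent μ K + C →
      ∀ m : ℕ, 1 ≤ m → (m : ℝ) ≤ 1 / ε → ‖∫ x, (fourier (m : ℤ) x : ℂ) ∂μ‖ < ε

/-- **Growth, finitely supported case.** -/
theorem growth_fin {C ε η : ℝ} (h : Growth C ε η) (hη : 0 ≤ η) (μ ν : Measure Tor)
    [hμ : IsProbabilityMeasure μ] [hν : IsProbabilityMeasure ν] (hinv : Inv μ) (O A Z : Finset Tor)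
    (hO : ∀ᵐ x ∂μ, x ∈ O) (hA : ∀ᵐ x ∂ν, x ∈ A) {a : ℝ} (ha : 0 < a)
    (hat : ∀ x, μ.real {x} ≤ a) (hbt : ∀ x, ν.real {x} ≤ η)
    (hZ : ∀ᵐ x ∂(conv μ ν), x ∈ Z) (hcard : Real.log Z.card ≤ Real.log (1 / a) + C) :
    ∀ m : ℕ, 1 ≤ m → (m : ℝ) ≤ 1 / ε → ‖∫ x, (fourier (m : ℤ) x : ℂ) ∂μ‖ < ε := by
  obtain ⟨K₁, hK₁⟩ := exists_scale O
  obtain ⟨K₂, hK₂⟩ := exists_scale A
  have h1 := hK₁ (max K₁ K₂) (le_max_left _ _)
  have h2 := hK₂ (max K₁ K₂) (le_max_right _ _)
  refine h μ ν hμ hν hinv (max K₁ K₂) (fun i _ => real_le_of_one A hA hη hbt _ fun x hx y hy hxA hyA =>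
    idx_inj_of_scale h2 x hxA y hyA (hx.trans hy.symm)) ?_
  have hp : IsProbabilityMeasure (conv μ ν) := by
    unfold conv
    exact Measure.isProbabilityMeasure_map (by fun_prop)
  exact (ent_le_of_support _ Z hZ _).trans (hcard.trans
    (add_le_add (le_ent_of_atoms μ O hO ha hat _ (idx_inj_of_scale h1)) le_rfl))

/-! ### uniform measures -/

/-- the uniform probability measure on a finite set -/
noncomputable def unif (O : Finset Tor) : Measure Tor :=
  (O.card : ENNReal)⁻¹ • ∑ x ∈ O, Measure.dirac x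

theorem unif_apply (O : Finset Tor) (B : Set Tor) [DecidablePred (· ∈ B)] :
    unif O B = (O.card : ENNReal)⁻¹ * (O.filter (· ∈ B)).card := by
  unfold unif
  rw [Measure.smul_apply, Measure.coe_finset_sum, Finset.sum_apply, smul_eq_mul]
  congr 1
  simp only [Measure.dirac_apply, Set.indicator_apply, Pi.one_apply]
  rw [Finset.sum_boole]

theorem prob_unif {O : Finset Tor} (hO : O.Nonempty) : IsProbabilityMeasure (unif O) := by
  classical
  refine ⟨?_⟩
  rw [unif_apply]
  simp only [Set.mem_univ, Finset.filter_true]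
  refine ENNReal.inv_mul_cancel ?_ (ENNReal.natCast_ne_top _)
  exact_mod_cast (Finset.card_pos.2 hO).ne'

theorem ae_unif (O : Finset Tor) : ∀ᵐ x ∂(unif O), x ∈ O := by
  classical
  rw [ae_iff, unif_apply]
  simp

theorem atom_unif (O : Finset Tor) (x : Tor) : (unif O).real {x} ≤ 1 / O.card := by
  classical
  rw [measureReal_def, unif_apply, ENNReal.toReal_mul, ENNReal.toReal_inv, ENNReal.toReal_natCast,
    ENNReal.toReal_natCast]
  have h1 : ((O.filter (· ∈ ({x} : Set Tor))).card : ℝ) ≤ 1 := by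
    have : (O.filter (· ∈ ({x} : Set Tor))).card ≤ ({x} : Finset Tor).card := by
      refine Finset.card_le_card fun y hy => ?_
      have := (Finset.mem_filter.1 hy).2
      exact Finset.mem_singleton.2 this
    rw [Finset.card_singleton] at this
    exact_mod_cast this
  rw [one_div]
  calc ((O.card : ℝ))⁻¹ * ((O.filter (· ∈ ({x} : Set Tor))).card : ℝ)
      ≤ ((O.card : ℝ))⁻¹ * 1 := mul_le_mul_of_nonneg_left h1 (by positivity)
    _ = _ := mul_one _

theorem map_unif {O : Finset Tor} {f : Tor → Tor} (hf : Measurable f) (hO : f '' O = O) :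
    (unif O).map f = unif O := by
  classical
  have himg : O.image f = O := by
    rw [← Finset.coe_inj, Finset.coe_image]
    exact hO
  have hinj : Set.InjOn f O := by
    rw [← Finset.card_image_iff, himg]
  refine Measure.ext fun B hB => ?_
  rw [Measure.map_apply hf hB, unif_apply, unif_apply]
  congr 2
  have e : O.filter (· ∈ B) = (O.filter (· ∈ f ⁻¹' B)).image f := by
    ext y
    simp only [Finset.mem_filter, Finset.mem_image, Set.mem_preimage]
    constructor
    · rintro ⟨hy, hyB⟩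
      have : y ∈ O.image f := by rw [himg]; exact hy
      obtain ⟨x, hx, rfl⟩ := Finset.mem_image.1 this
      exact ⟨x, ⟨hx, hyB⟩, rfl⟩
    · rintro ⟨x, ⟨hx, hxB⟩, rfl⟩
      refine ⟨?_, hxB⟩
      rw [← himg]
      exact Finset.mem_image_of_mem f hx
  rw [e, Finset.card_image_of_injOn]
  exact fun x hx y hy h => hinj (Finset.mem_filter.1 hx).1 (Finset.mem_filter.1 hy).1 h

theorem inv_unif {O : Finset Tor} (h2 : (fun x : Tor => (2 : ℕ) • x) '' O = O)
    (h3 : (fun x : Tor => (3 : ℕ) • x) '' O = O) : Inv (unif O) :=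
  ⟨⟨by fun_prop, map_unif (by fun_prop) h2⟩, ⟨by fun_prop, map_unif (by fun_prop) h3⟩⟩

theorem integral_unif (O : Finset Tor) (f : Tor → ℂ) (hf : Continuous f) :
    ∫ x, f x ∂(unif O) = (∑ x ∈ O, f x) / O.card := by
  unfold unif
  rw [integral_smul_measure, integral_finsetSum_measure]
  · simp only [integral_dirac]
    rw [ENNReal.toReal_inv, ENNReal.toReal_natCast, div_eq_inv_mul, Complex.real_smul]
    push_cast
    ring
  · intro x _
    exact Helper17.TranslM.integrable_cont _ hf

/-- **Growth of finite invariant sets.** -/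
theorem sets_of_growth {C ε η : ℝ} (h : Growth (Real.log C) ε η) (hC : 0 < C) (hη : 0 < η)
    (O A : Finset Tor) (hne : O.Nonempty) (h2 : (fun x : Tor => (2 : ℕ) • x) '' O = O)
    (h3 : (fun x : Tor => (3 : ℕ) • x) '' O = O) (hA : 1 / η ≤ A.card)
    (hOA : (Set.ncard ((fun p : Tor × Tor => p.1 + p.2) '' ((O : Set Tor) ×ˢ (A : Set Tor))) : ℝ) ≤
      C * O.card) :
    ∀ m : ℕ, 1 ≤ m → (m : ℝ) ≤ 1 / ε → ‖∑ x ∈ O, (fourier (m : ℤ) x : ℂ)‖ < ε * O.card := by
  classical
  have hAne : A.Nonempty := by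
    rw [← Finset.card_pos]
    have : (0 : ℝ) < A.card := lt_of_lt_of_le (by positivity) hA
    exact_mod_cast this
  have hOc : (0 : ℝ) < O.card := by exact_mod_cast Finset.card_pos.2 hne
  have hp := prob_unif hne
  have hq := prob_unif hAne
  have hfin : ((fun p : Tor × Tor => p.1 + p.2) '' ((O : Set Tor) ×ˢ (A : Set Tor))).Finite :=
    (O.finite_toSet.prod A.finite_toSet).image _
  have hZ : ∀ᵐ x ∂(conv (unif O) (unif A)), x ∈ hfin.toFinset := by
    filter_upwards [conv_support (ae_unif O) (ae_unif A)] with x hx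
    obtain ⟨y, hy, z, hz, rfl⟩ := hx
    rw [Set.Finite.mem_toFinset]
    exact ⟨(y, z), ⟨hy, hz⟩, rfl⟩
  have hcard : Real.log hfin.toFinset.card ≤ Real.log (1 / (1 / (O.card : ℝ))) + Real.log C := by
    have e : hfin.toFinset.card =
        Set.ncard ((fun p : Tor × Tor => p.1 + p.2) '' ((O : Set Tor) ×ˢ (A : Set Tor))) := by
      rw [Set.ncard_eq_toFinset_card _ hfin]
    have hpos : 0 < hfin.toFinset.card := by
      rw [Finset.card_pos]
      have hprob : IsProbabilityMeasure (conv (unif O) (unif A)) := by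
        unfold conv
        exact Measure.isProbabilityMeasure_map (by fun_prop)
      obtain ⟨x, hx⟩ := hZ.exists
      exact ⟨x, hx⟩
    rw [one_div_one_div, ← Real.log_mul hOc.ne' hC.ne']
    refine Real.log_le_log (by exact_mod_cast hpos) ?_
    rw [e, mul_comm]
    exact hOA
  intro m hm hmε
  have h4 := growth_fin h hη.le (unif O) (unif A) (inv_unif h2 h3) O A hfin.toFinset (ae_unif O)
    (ae_unif A) (a := 1 / (O.card : ℝ)) (by positivity) (atom_unif O)
    (fun x => (atom_unif A x).trans ?_) hZ hcard m hm hmε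
  · rw [integral_unif O _ (by fun_prop), norm_div, Complex.norm_natCast, div_lt_iff₀ hOc] at h4
    exact h4
  · rw [div_le_iff₀ (by exact_mod_cast Finset.card_pos.2 hAne)]
    rw [div_le_iff₀ hη] at hA
    linarith

end Helper16.SAG
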