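import Mathlib
import Pool.Agent.Helper16.SAG.Sets
import Pool.Agent.Helper16.SAG.Rank
import Pool.Agent.Helper40.TMA.Exotic

/-!
# Products of extreme traces

If the conditional dimension of the product of two extreme traces is at most `C` times that of the
first one and the conditional dimension of the second one is large, then the first one is close to
the regular trace.
-/

set_option autoImplicit false

open MeasureTheory Filter Topology Helper17.FU Helper17.FUGroup Helper91.TTT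
open scoped ComplexOrder

namespace Helper16.SAG

open Helper35.AG (idx ent conv Inv)

/-- Fourier coefficients of a convolution -/
theorem fourier_conv (μ ν : Measure (AddCircle (1 : ℝ))) [IsProbabilityMeasure μ] [IsProbabilityMeasure ν]
    (n : ℤ) : ∫ x, (fourier n x : ℂ) ∂(conv μ ν) =
      (∫ x, (fourier n x : ℂ) ∂μ) * ∫ x, (fourier n x : ℂ) ∂ν := by
  have hm : Measurable fun p : AddCircle (1 : ℝ) × AddCircle (1 : ℝ) => p.1 + p.2 := by fun_prop
  unfold conv
  rw [integral_map hm.aemeasurable (by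
    exact (fourier n).continuous.aestronglyMeasurable)]
  have e : ∀ p : AddCircle (1 : ℝ) × AddCircle (1 : ℝ), (fourier n (p.1 + p.2) : ℂ) = fourier n p.1 * fourier n p.2 := by
    intro p
    rw [fourier_apply, fourier_apply, fourier_apply, smul_add, AddCircle.toCircle_add]
    rfl
  simp only [e]
  exact integral_prod_mul (fun x : AddCircle (1 : ℝ) => (fourier n x : ℂ)) (fun x : AddCircle (1 : ℝ) => (fourier n x : ℂ))

/-- if a convolution is finitely supported, so is the second factor -/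
theorem support_of_conv {μ ν : Measure (AddCircle (1 : ℝ))} [IsProbabilityMeasure μ] [IsProbabilityMeasure ν]
    (Z : Finset (AddCircle (1 : ℝ))) (hZ : ∀ᵐ x ∂(conv μ ν), x ∈ Z) :
    ∃ A : Finset (AddCircle (1 : ℝ)), ∀ᵐ y ∂ν, y ∈ A := by
  classical
  have hm : Measurable fun p : AddCircle (1 : ℝ) × AddCircle (1 : ℝ) => p.1 + p.2 := by fun_prop
  unfold conv at hZ
  have hZ' : ∀ᵐ p : AddCircle (1 : ℝ) × AddCircle (1 : ℝ) ∂(μ.prod ν), p.1 + p.2 ∈ Z :=
    ae_of_ae_map hm.aemeasurable hZ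
  have h1 := Measure.ae_ae_of_ae_prod hZ'
  obtain ⟨x, hx⟩ := h1.exists
  refine ⟨Z.image fun z => z - x, ?_⟩
  filter_upwards [hx] with y hy
  exact Finset.mem_image.2 ⟨x + y, hy, by simp⟩

variable {s2 s3 t : Equiv.Perm ℚ}

/-- **Products of extreme traces.** -/
theorem trace_of_growth (h2 : ∀ x : ℚ, s2 x = 2 * x) (h3 : ∀ x : ℚ, s3 x = 3 * x)
    (ht : ∀ x : ℚ, t x = x + 1) {τ : GG s2 s3 t} (hτ : (τ : Equiv.Perm ℚ) = t)
    {C ε η : ℝ} (hg : Growth (Real.log C) ε η) (hC : 0 < C) (hη : 0 < η)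
    {φ ψ : GG s2 s3 t → ℂ} (hφ : φ ∈ Set.extremePoints ℝ (TR (GG s2 s3 t)))
    (hψ : ψ ∈ Set.extremePoints ℝ (TR (GG s2 s3 t)))
    (hfd : FiniteDimensional ℂ (Submodule.span ℂ {F : GG s2 s3 t → ℂ | ∃ n : GG s2 s3 t,
      IsTr n ∧ F = fun x => φ (n * x) * ψ (n * x)}))
    (hdim : (Module.finrank ℂ (Submodule.span ℂ {F : GG s2 s3 t → ℂ | ∃ n : GG s2 s3 t,
      IsTr n ∧ F = fun x => φ (n * x) * ψ (n * x)}) : ℝ) ≤
      C * Module.finrank ℂ (Submodule.span ℂ {F : GG s2 s3 t → ℂ | ∃ n : GG s2 s3 t,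
      IsTr n ∧ F = fun x => φ (n * x)}))
    (hD : ((⌈1 / η⌉₊ : ℕ) : Cardinal) ≤
      Module.rank ℂ (Submodule.span ℂ {F : GG s2 s3 t → ℂ | ∃ n : GG s2 s3 t,
      IsTr n ∧ F = fun x => ψ (n * x)})) :
    ∀ m : ℕ, 1 ≤ m → (m : ℝ) ≤ 1 / ε → ‖φ (τ ^ m)‖ < ε := by
  classical
  obtain ⟨μ, hμp, hμ, hm2, hm3⟩ := Pool.Agent.Helper40.TMA.exists_measure h2 h3 ht hτ hφ
  obtain ⟨ν, hνp, hν, hn2, hn3⟩ := Pool.Agent.Helper40.TMA.exists_measure h2 h3 ht hτ hψ
  have hcp : IsProbabilityMeasure (conv μ ν) := by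
    unfold conv
    exact Measure.isProbabilityMeasure_map (by fun_prop)
  -- the support of the convolution
  set ρ : GG s2 s3 t → ℂ := fun x => φ x * ψ x with hρ
  set W := Submodule.span ℂ {F : GG s2 s3 t → ℂ | ∃ n : GG s2 s3 t,
      IsTr n ∧ F = fun x => φ (n * x) * ψ (n * x)} with hW
  have hW' : W = Submodule.span ℂ {F : GG s2 s3 t → ℂ | ∃ n : GG s2 s3 t,
      IsTr n ∧ F = fun x => ρ (n * x)} := rfl
  set d := Module.finrank ℂ W with hd
  have hrank : Module.rank ℂ (Submodule.span ℂ {F : GG s2 s3 t → ℂ | ∃ n : GG s2 s3 t,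
      IsTr n ∧ F = fun x => ρ (n * x)}) ≤ (d : Cardinal) := by
    rw [← hW', hd, Module.finrank_eq_rank]
  obtain ⟨c, hc, hrec⟩ := Helper58.LU.recurrence_of_rank hτ ht hrank
  obtain ⟨Z, hZ, hae⟩ := Helper58.LU.support_card (conv μ ν) d c hc (fun m => by
    rw [← hrec m]
    refine Finset.sum_congr rfl fun j _ => ?_
    congr 1
    show ∫ x, (fourier ((j : ℤ) + m) x : ℂ) ∂(conv μ ν) = _
    rw [fourier_conv, hμ, hν])
  have hZpos : 0 < Z.card := by
    rw [Finset.card_pos]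
    obtain ⟨x, hx⟩ := hae.exists
    exact ⟨x, hx⟩
  have hdpos : 0 < d := lt_of_lt_of_le hZpos hZ
  -- finite dimensionality of the first factor
  have hfd1 : FiniteDimensional ℂ (Submodule.span ℂ {F : GG s2 s3 t → ℂ | ∃ n : GG s2 s3 t,
      IsTr n ∧ F = fun x => φ (n * x)}) := by
    by_contra hcon
    rw [Module.finrank_of_not_finite hcon] at hdim
    simp only [Nat.cast_zero, mul_zero] at hdim
    have : (0 : ℝ) < d := by exact_mod_cast hdpos
    linarith
  -- finite dimensionality of the second factor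
  have hfd2 : FiniteDimensional ℂ (Submodule.span ℂ {F : GG s2 s3 t → ℂ | ∃ n : GG s2 s3 t,
      IsTr n ∧ F = fun x => ψ (n * x)}) := by
    obtain ⟨A, hA⟩ := support_of_conv Z hae
    have hatom : ∃ x, 0 < ν.real {x} := by
      by_contra hcon
      push Not at hcon
      have h4 : ν (A : Set (AddCircle (1 : ℝ))) = 0 := by
        rw [← sum_measure_singleton]
        refine Finset.sum_eq_zero fun x _ => ?_
        have h7 : ν.real {x} = 0 := le_antisymm (hcon x) measureReal_nonneg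
        rw [measureReal_def, ENNReal.toReal_eq_zero_iff] at h7
        exact h7.resolve_right (measure_ne_top _ _)
      have h8 : ∀ᵐ x ∂ν, x ∉ (A : Set (AddCircle (1 : ℝ))) := measure_eq_zero_iff_ae_notMem.1 h4
      obtain ⟨x, hx⟩ := (h8.and hA).exists
      exact hx.1 hx.2
    obtain ⟨x, hx⟩ := hatom
    have h5 := Helper58.LU.rank_of_atom h2 h3 ht hτ hψ hν hn2 hn3 hx (le_refl _)
    exact Module.rank_lt_aleph0_iff.1 (lt_of_le_of_lt h5 Cardinal.natCast_lt_aleph0)
  obtain ⟨O, hO, hOd, hOpos, hOat⟩ := uniform_of_fd h2 h3 ht hτ hφ hμ hm2 hm3 hfd1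
  obtain ⟨A, hA, hAd, hApos, hAat⟩ := uniform_of_fd h2 h3 ht hτ hψ hν hn2 hn3 hfd2
  have hAη : ∀ x, ν.real {x} ≤ η := by
    intro x
    refine (hAat x).trans ?_
    have h5 : ⌈1 / η⌉₊ ≤ A.card := by
      rw [← hAd]
      rw [← Module.finrank_eq_rank] at hD
      exact_mod_cast hD
    have h6 : 1 / η ≤ (A.card : ℝ) := (Nat.le_ceil _).trans (by exact_mod_cast h5)
    have h7 : (0 : ℝ) < A.card := by exact_mod_cast hApos
    rw [div_le_iff₀ hη] at h6
    rw [div_le_iff₀ h7]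
    linarith
  have hOc : (0 : ℝ) < O.card := by exact_mod_cast hOpos
  have hcard : Real.log Z.card ≤ Real.log (1 / (1 / (O.card : ℝ))) + Real.log C := by
    rw [one_div_one_div, ← Real.log_mul hOc.ne' hC.ne']
    refine Real.log_le_log (by exact_mod_cast hZpos) ?_
    rw [hOd] at hdim
    have : (Z.card : ℝ) ≤ d := by exact_mod_cast hZ
    linarith
  intro m hm hmε
  have h9 := growth_fin hg hη.le μ ν ⟨hm2, hm3⟩ O A Z hO hA (a := 1 / (O.card : ℝ))
    (by positivity) hOat hAη hae hcard m hm hmε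
  rw [hμ] at h9
  rw [← zpow_natCast]
  exact h9

end Helper16.SAG
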