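import Mathlib
import Pool.Agent.Helper16.SAG.Trace
import Pool.Agent.Helper39.SAG.Main

/-!
# Finite forms of the growth theorem

* `sets`: finite sets invariant under 2 and 3 grow, or are equidistributed.
* `traces`: the conditional dimension of a product of extreme traces.
-/

set_option autoImplicit false

open MeasureTheory Filter Topology Helper17.FU Helper17.FUGroup Helper91.TTT
open scoped ComplexOrder

namespace Helper16.SAG

open Helper35.AG (idx ent conv Inv)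

theorem growth (C : ℝ) {ε : ℝ} (hε : 0 < ε) : ∃ η : ℝ, 0 < η ∧ Growth C ε η := by
  obtain ⟨η, hη, h⟩ := Helper39.SAG.sag C hε
  exact ⟨η, hη, fun μ ν hμ hν hinv K h1 h2 => h μ ν K hinv h1 h2⟩

/-- **Growth of finite invariant sets.**  If `O` is finite and invariant under 2 and 3, `A` is finite
and large and `O + A` has at most `C |O|` elements then the first Fourier coefficients of `O` are
small. -/
theorem sets (C : ℝ) {ε : ℝ} (hε : 0 < ε) : ∃ D : ℕ, ∀ O A : Finset (AddCircle (1 : ℝ)),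
    O.Nonempty → (fun x : AddCircle (1 : ℝ) => (2 : ℕ) • x) '' O = O →
    (fun x : AddCircle (1 : ℝ) => (3 : ℕ) • x) '' O = O → D ≤ A.card →
    (Set.ncard ((fun p : AddCircle (1 : ℝ) × AddCircle (1 : ℝ) => p.1 + p.2) ''
      ((O : Set (AddCircle (1 : ℝ))) ×ˢ (A : Set (AddCircle (1 : ℝ))))) : ℝ) ≤ C * O.card →
    ∀ m : ℕ, 1 ≤ m → (m : ℝ) ≤ 1 / ε → ‖∑ x ∈ O, (fourier (m : ℤ) x : ℂ)‖ < ε * O.card := by
  obtain ⟨η, hη, h⟩ := growth (Real.log (max C 1)) hε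
  refine ⟨⌈1 / η⌉₊, fun O A hne h2 h3 hA hOA => ?_⟩
  refine sets_of_growth h (by positivity) hη O A hne h2 h3 ?_ ?_
  · exact (Nat.le_ceil _).trans (by exact_mod_cast hA)
  · refine hOA.trans (mul_le_mul_of_nonneg_right (le_max_left _ _) (Nat.cast_nonneg _))

/-- **Products of extreme traces.** -/
theorem traces (C : ℝ) {ε : ℝ} (hε : 0 < ε) : ∃ D : ℕ, ∀ {s2 s3 t : Equiv.Perm ℚ},
    (∀ x : ℚ, s2 x = 2 * x) → (∀ x : ℚ, s3 x = 3 * x) → (∀ x : ℚ, t x = x + 1) →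
    ∀ {τ : GG s2 s3 t}, (τ : Equiv.Perm ℚ) = t → ∀ φ ψ : GG s2 s3 t → ℂ,
    φ ∈ Set.extremePoints ℝ (TR (GG s2 s3 t)) → ψ ∈ Set.extremePoints ℝ (TR (GG s2 s3 t)) →
    FiniteDimensional ℂ (Submodule.span ℂ {F : GG s2 s3 t → ℂ | ∃ n : GG s2 s3 t,
      IsTr n ∧ F = fun x => φ (n * x) * ψ (n * x)}) →
    (Module.finrank ℂ (Submodule.span ℂ {F : GG s2 s3 t → ℂ | ∃ n : GG s2 s3 t,
      IsTr n ∧ F = fun x => φ (n * x) * ψ (n * x)}) : ℝ) ≤
      C * Module.finrank ℂ (Submodule.span ℂ {F : GG s2 s3 t → ℂ | ∃ n : GG s2 s3 t,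
      IsTr n ∧ F = fun x => φ (n * x)}) →
    (D : Cardinal) ≤ Module.rank ℂ (Submodule.span ℂ {F : GG s2 s3 t → ℂ | ∃ n : GG s2 s3 t,
      IsTr n ∧ F = fun x => ψ (n * x)}) →
    ∀ m : ℕ, 1 ≤ m → (m : ℝ) ≤ 1 / ε → ‖φ (τ ^ m)‖ < ε := by
  obtain ⟨η, hη, h⟩ := growth (Real.log (max C 1)) hε
  refine ⟨⌈1 / η⌉₊, fun {s2 s3 t} h2 h3 ht {τ} hτ φ ψ hφ hψ hfd hdim hD => ?_⟩
  refine trace_of_growth h2 h3 ht hτ h (by positivity) hη hφ hψ hfd ?_ hD
  exact hdim.trans (mul_le_mul_of_nonneg_right (le_max_left _ _) (Nat.cast_nonneg _))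

end Helper16.SAG
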