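import Mathlib
import Pool.Agent.Helper16.SAG.Final
import Pool.Agent.Helper35.AG.TraceM

/-!
# Products with an arbitrary finite dimensional trace
-/

set_option autoImplicit false

open MeasureTheory Filter Topology Helper17.FU Helper17.FUGroup Helper91.TTT
open scoped ComplexOrder

namespace Helper16.SAG

open Helper35.AG (idx ent conv Inv)

variable {s2 s3 t : Equiv.Perm ℚ}

/-- The measure of a conditionally finite dimensional trace has as many atoms as the conditional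
dimension. -/
theorem support_of_fd (h2 : ∀ x : ℚ, s2 x = 2 * x) (h3 : ∀ x : ℚ, s3 x = 3 * x)
    (ht : ∀ x : ℚ, t x = x + 1) {τ : GG s2 s3 t} (hτ : (τ : Equiv.Perm ℚ) = t)
    {φ : GG s2 s3 t → ℂ} (hφ : φ ∈ TR (GG s2 s3 t))
    {μ : Measure (AddCircle (1 : ℝ))} [IsProbabilityMeasure μ]
    (hμ : ∀ n : ℤ, ∫ x, (fourier n x : ℂ) ∂μ = φ (τ ^ n)) (hinv : Inv μ)
    (hfd : FiniteDimensional ℂ (Submodule.span ℂ {F : GG s2 s3 t → ℂ | ∃ n : GG s2 s3 t,
      IsTr n ∧ F = fun x => φ (n * x)})) :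
    ∃ O : Finset (AddCircle (1 : ℝ)), (∀ᵐ x ∂μ, x ∈ O) ∧
      Module.finrank ℂ (Submodule.span ℂ {F : GG s2 s3 t → ℂ | ∃ n : GG s2 s3 t,
        IsTr n ∧ F = fun x => φ (n * x)}) = O.card ∧ 0 < O.card ∧
      ∀ x ∈ O, 0 < μ.real {x} := by
  classical
  have hφ1 : φ 1 = 1 := hφ.1
  have hφc := hφ.2.1
  have hFφ : Fact (PD φ) := ⟨hφ.2.2⟩
  set d := Module.finrank ℂ (Submodule.span ℂ {F : GG s2 s3 t → ℂ | ∃ n : GG s2 s3 t,
      IsTr n ∧ F = fun x => φ (n * x)}) with hd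
  have hrank : Module.rank ℂ (Submodule.span ℂ {F : GG s2 s3 t → ℂ | ∃ n : GG s2 s3 t,
      IsTr n ∧ F = fun x => φ (n * x)}) ≤ (d : Cardinal) := by
    rw [hd, Module.finrank_eq_rank]
  obtain ⟨c, hc, hrec⟩ := Helper58.LU.recurrence_of_rank hτ ht hrank
  obtain ⟨Z, hZ, hae⟩ := Helper58.LU.support_card μ d c hc (fun m => by
    rw [← hrec m]
    refine Finset.sum_congr rfl fun j _ => ?_
    congr 1
    exact hμ _)
  -- the atoms
  set O := Z.filter fun x => 0 < μ.real {x} with hO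
  have hOae : ∀ᵐ x ∂μ, x ∈ O := by
    have h4 : μ ((Z : Set (AddCircle (1 : ℝ))) \ O) = 0 := by
      have h5 : ((Z : Set (AddCircle (1 : ℝ))) \ O) =
          ((Z.filter fun x => ¬ 0 < μ.real {x} : Finset _) : Set _) := by
        ext x
        simp only [hO, Set.mem_sdiff, Finset.mem_coe, Finset.mem_filter]
        tauto
      rw [h5, ← sum_measure_singleton]
      refine Finset.sum_eq_zero fun x hx => ?_
      have h6 := (Finset.mem_filter.1 hx).2
      have h7 : μ.real {x} = 0 := le_antisymm (not_lt.1 h6) measureReal_nonneg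
      rw [measureReal_def, ENNReal.toReal_eq_zero_iff] at h7
      exact h7.resolve_right (measure_ne_top _ _)
    have h8 : ∀ᵐ x ∂μ, x ∉ (Z : Set (AddCircle (1 : ℝ))) \ O := measure_eq_zero_iff_ae_notMem.1 h4
    filter_upwards [h8, hae] with x hx hxZ
    by_contra hcon
    exact hx ⟨hxZ, hcon⟩
  have hOne : O.Nonempty := by
    obtain ⟨x, hx⟩ := hOae.exists
    exact ⟨x, hx⟩
  -- the dimension
  obtain ⟨σ2, σ3, τ', hσ2, hσ3, hτ', e2, e3, ecomm, hgen⟩ := relations h2 h3 ht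
  have hττ' : τ' = τ := Subtype.ext (by rw [hτ', hτ])
  rw [hττ'] at e2 e3 hgen
  have hP : ∀ j : ℤ, (σ2 * σ3) * τ ^ j * (σ2 * σ3)⁻¹ = τ ^ (6 * j) := by
    intro j
    have e : (σ2 * σ3) * τ ^ j * (σ2 * σ3)⁻¹ = σ2 * (σ3 * τ ^ j * σ3⁻¹) * σ2⁻¹ := by group
    rw [e, conj_pow3 e3, Helper17.FU.conj_pow e2]
    congr 1; ring
  have hchar := Helper58.LU.exists_char_of_rank ht hτ hrank hμ hinv.two
  have hker : φ (τ ^ (((2 ^ d).factorial : ℕ) : ℤ)) = 1 := by
    rw [← hμ]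
    have h5 : ∫ x, (fourier (((2 ^ d).factorial : ℕ) : ℤ) x : ℂ) ∂μ = ∫ _x, (1 : ℂ) ∂μ := by
      refine integral_congr_ae ?_
      filter_upwards [hchar] with x hx
      rw [fourier_apply, natCast_zsmul, hx, AddCircle.toCircle_zero]
      rfl
    rw [h5]
    simp
  have hle := (rank_le_card_of_kernel hφ1 hφc (σ2 * σ3) τ hP
    (by exact_mod_cast (Nat.factorial_pos _).ne') hker
    {n | IsTr n} (fun n hn => trans_conj h2 h3 ht hσ2 hσ3 hτ n hn) hμ O hOae).2
  have hge : O.card ≤ d := (Finset.card_le_card (Finset.filter_subset _ _)).trans hZ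
  exact ⟨O, hOae, le_antisymm hle hge, Finset.card_pos.2 hOne, fun x hx =>
    (Finset.mem_filter.1 hx).2⟩

/-- the atoms of a convolution -/
theorem mem_of_conv {μ ν : Measure (AddCircle (1 : ℝ))} [IsProbabilityMeasure μ]
    [IsProbabilityMeasure ν] {Z : Finset (AddCircle (1 : ℝ))} (hZ : ∀ᵐ x ∂(conv μ ν), x ∈ Z)
    {x y : AddCircle (1 : ℝ)} (hx : 0 < μ.real {x}) (hy : 0 < ν.real {y}) : x + y ∈ Z := by
  by_contra hcon
  have hm : Measurable fun p : AddCircle (1 : ℝ) × AddCircle (1 : ℝ) => p.1 + p.2 := by fun_prop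
  have hZ' : ∀ᵐ p : AddCircle (1 : ℝ) × AddCircle (1 : ℝ) ∂(μ.prod ν), p.1 + p.2 ∈ Z :=
    ae_of_ae_map hm.aemeasurable hZ
  have h1 : (μ.prod ν) {(x, y)} = 0 := by
    rw [measure_eq_zero_iff_ae_notMem]
    filter_upwards [hZ'] with p hp hp'
    rw [Set.mem_singleton_iff] at hp'
    rw [hp'] at hp
    exact hcon hp
  rw [← Set.singleton_prod_singleton, Measure.prod_prod, mul_eq_zero] at h1
  rcases h1 with h | h
  · rw [measureReal_def, h, ENNReal.toReal_zero] at hx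
    exact lt_irrefl _ hx
  · rw [measureReal_def, h, ENNReal.toReal_zero] at hy
    exact lt_irrefl _ hy

/-- **Part (B).** -/
theorem partB (h2 : ∀ x : ℚ, s2 x = 2 * x) (h3 : ∀ x : ℚ, s3 x = 3 * x)
    (ht : ∀ x : ℚ, t x = x + 1) {τ : GG s2 s3 t} (hτ : (τ : Equiv.Perm ℚ) = t) (C : ℝ)
    {U : Set (GG s2 s3 t → ℂ)}
    (hU : U ∈ 𝓝 (Set.indicator ({1} : Set (GG s2 s3 t)) (fun _ => (1 : ℂ)))) :
    ∃ D : ℕ, ∀ φ ∈ Set.extremePoints ℝ (TR (GG s2 s3 t)), ∀ ψ ∈ TR (GG s2 s3 t),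
    FiniteDimensional ℂ (Submodule.span ℂ {F : GG s2 s3 t → ℂ | ∃ n : GG s2 s3 t,
      IsTr n ∧ F = fun x => φ (n * x)}) →
    FiniteDimensional ℂ (Submodule.span ℂ {F : GG s2 s3 t → ℂ | ∃ n : GG s2 s3 t,
      IsTr n ∧ F = fun x => ψ (n * x)}) →
    D < Module.finrank ℂ (Submodule.span ℂ {F : GG s2 s3 t → ℂ | ∃ n : GG s2 s3 t,
      IsTr n ∧ F = fun x => ψ (n * x)}) →
    (Module.finrank ℂ (Submodule.span ℂ {F : GG s2 s3 t → ℂ | ∃ n : GG s2 s3 t,
      IsTr n ∧ F = fun x => (φ * ψ) (n * x)}) : ℝ) ≤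
      C * Module.finrank ℂ (Submodule.span ℂ {F : GG s2 s3 t → ℂ | ∃ n : GG s2 s3 t,
      IsTr n ∧ F = fun x => φ (n * x)}) → φ ∈ U := by
  classical
  obtain ⟨n, hn⟩ := Helper35.AG.exists_near h2 h3 ht hτ hU
  have hε : (0 : ℝ) < 1 / (n + 1) := by positivity
  obtain ⟨η, hη, hg⟩ := growth (Real.log (max C 1)) hε
  refine ⟨⌈1 / η⌉₊, fun φ hφ ψ hψ hfd1 hfd2 hD hdim => ?_⟩
  refine hn φ hφ.1 ?_
  obtain ⟨μ, hμp, hμ, hmi⟩ := Helper35.AG.exists_measure h2 h3 ht hτ hφ.1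
  obtain ⟨ν, hνp, hν, hni⟩ := Helper35.AG.exists_measure h2 h3 ht hτ hψ
  have hcp : IsProbabilityMeasure (conv μ ν) := by
    unfold conv
    exact Measure.isProbabilityMeasure_map (by fun_prop)
  -- the product is finite dimensional
  set W := Submodule.span ℂ {F : GG s2 s3 t → ℂ | ∃ n : GG s2 s3 t,
      IsTr n ∧ F = fun x => (φ * ψ) (n * x)} with hW
  have hfd : FiniteDimensional ℂ W := by
    have hle : W ≤ Submodule.span ℂ {F : GG s2 s3 t → ℂ | ∃ n : GG s2 s3 t,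
        IsTr n ∧ F = fun x => φ (n * x)} * Submodule.span ℂ {F : GG s2 s3 t → ℂ |
        ∃ n : GG s2 s3 t, IsTr n ∧ F = fun x => ψ (n * x)} := by
      rw [hW, Submodule.span_le]
      rintro F ⟨m, hm, rfl⟩
      exact Submodule.mul_mem_mul (Submodule.subset_span ⟨m, hm, rfl⟩)
        (Submodule.subset_span ⟨m, hm, rfl⟩)
    have hfg := Submodule.FG.mul ((Submodule.fg_iff_finiteDimensional _).2 hfd1)
      ((Submodule.fg_iff_finiteDimensional _).2 hfd2)
    have hfin := (Submodule.fg_iff_finiteDimensional _).1 hfg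
    exact Submodule.finiteDimensional_of_le hle
  set d := Module.finrank ℂ W with hd
  have hrank : Module.rank ℂ W ≤ (d : Cardinal) := by
    rw [hd, Module.finrank_eq_rank]
  obtain ⟨c, hc, hrec⟩ := Helper58.LU.recurrence_of_rank hτ ht hrank
  obtain ⟨Z, hZ, hae⟩ := Helper58.LU.support_card (conv μ ν) d c hc (fun m => by
    rw [← hrec m]
    refine Finset.sum_congr rfl fun j _ => ?_
    congr 1
    show ∫ x, (fourier ((j : ℤ) + m) x : ℂ) ∂(conv μ ν) = _
    rw [fourier_conv, hμ, hν]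
    rfl)
  have hZpos : 0 < Z.card := by
    rw [Finset.card_pos]
    obtain ⟨x, hx⟩ := hae.exists
    exact ⟨x, hx⟩
  obtain ⟨O, hO, hOd, hOpos, hOat⟩ := uniform_of_fd h2 h3 ht hτ hφ hμ hmi.two hmi.three hfd1
  obtain ⟨O', hO', hOd', hOpos', hOat'⟩ := support_of_fd h2 h3 ht hτ hφ.1 hμ hmi hfd1
  obtain ⟨A, hA, hAd, hApos, hAat⟩ := support_of_fd h2 h3 ht hτ hψ hν hni hfd2
  have hAne : A.Nonempty := Finset.card_pos.1 hApos
  have hAp := prob_unif hAne
  have hAη : ∀ x, (unif A).real {x} ≤ η := by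
    intro x
    refine (atom_unif A x).trans ?_
    have h5 : ⌈1 / η⌉₊ ≤ A.card := by
      rw [← hAd]
      exact hD.le
    have h6 : 1 / η ≤ (A.card : ℝ) := (Nat.le_ceil _).trans (by exact_mod_cast h5)
    have h7 : (0 : ℝ) < A.card := by exact_mod_cast hApos
    rw [div_le_iff₀ hη] at h6
    rw [div_le_iff₀ h7]
    linarith
  have hcl : ∀ᵐ x ∂(conv μ (unif A)), x ∈ Z := by
    filter_upwards [conv_support hO' (ae_unif A)] with x hx
    obtain ⟨y, hy, z, hz, rfl⟩ := hx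
    exact mem_of_conv hae (hOat' y hy) (hAat z hz)
  have hC : (0 : ℝ) < max C 1 := by positivity
  have hOc : (0 : ℝ) < O.card := by exact_mod_cast hOpos
  have hcard : Real.log Z.card ≤ Real.log (1 / (1 / (O.card : ℝ))) + Real.log (max C 1) := by
    rw [one_div_one_div, ← Real.log_mul hOc.ne' hC.ne']
    refine Real.log_le_log (by exact_mod_cast hZpos) ?_
    rw [hOd] at hdim
    have h5 : (Z.card : ℝ) ≤ d := by exact_mod_cast hZ
    have h6 : C * (O.card : ℝ) ≤ max C 1 * O.card :=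
      mul_le_mul_of_nonneg_right (le_max_left _ _) hOc.le
    linarith
  intro m hm hmn
  have h9 := growth_fin hg hη.le μ (unif A) hmi O A Z hO (ae_unif A) (a := 1 / (O.card : ℝ))
    (by positivity) hOat hAη hcl hcard m hm (by
      rw [one_div_one_div]
      have : (m : ℝ) ≤ n := by exact_mod_cast hmn
      linarith)
  rw [hμ] at h9
  rw [← zpow_natCast]
  exact h9.le

end Helper16.SAG
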